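import Pool.Agent.T9h88.IO.Spec

/-!
# The deduction theorem with a polynomial bound
-/

set_option autoImplicit false

namespace Pool.Agent.T9h73.IO

open Pool.Agent.TH672 (Fm Str upd num digits varStr LogK)
open Pool.Agent.TH636.BC
open Pool.Agent.T9h6.BC (sz cl sz_imp sz_all sz_pos)
open Pool.Agent.TH838.J1549 (step_mono isProof_append)
open Pool.Agent.T9h88.IO

theorem strs_cons (φ : Fml) (π : List Fml) : (strs (φ :: π)).length = sz φ + (strs π).length := by
  simp [strs, sz]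

theorem strs_append (π π' : List Fml) :
    (strs (π ++ π')).length = (strs π).length + (strs π').length := by
  simp [strs]

theorem sz_le_of_mem {φ : Fml} : ∀ {π : List Fml}, φ ∈ π → sz φ ≤ (strs π).length
  | ψ :: π, h => by
    rw [strs_cons]
    rcases List.mem_cons.1 h with rfl | h
    · omega
    · have := sz_le_of_mem h; omega

theorem length_le_strs : ∀ π : List Fml, π.length ≤ (strs π).length
  | [] => by simp
  | φ :: π => by
    rw [strs_cons, List.length_cons]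
    have := sz_pos φ
    have := length_le_strs π
    omega

theorem ded_aux (Γ : List Fml) (α : Fml) (hα : α.Closed) (B : ℕ) : ∀ π : List Fml,
    IsProof (α :: Γ) π → (∀ ψ ∈ π, sz ψ ≤ B) →
    ∃ π' : List Fml, IsProof Γ π' ∧ (∀ ψ ∈ π, α.imp ψ ∈ π') ∧
      (strs π').length ≤ π.length * (100 * (B + sz α + 1)) ∧
      (∀ ψ π₀, π = ψ :: π₀ → ∃ π₁, π' = α.imp ψ :: π₁) := by
  intro π
  induction π with
  | nil => exact fun _ _ => ⟨[], trivial, by simp, by simp [strs], by simp⟩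
  | cons ψ π ih =>
    intro hπ hB
    obtain ⟨π', h1, h2, h3, -⟩ := ih hπ.1 fun χ hχ => hB χ (List.mem_cons_of_mem _ hχ)
    have hψ : sz ψ ≤ B := hB ψ (List.mem_cons_self ..)
    have hp := sz_pos α
    have hp' := sz_pos ψ
    -- it suffices to give a block of lines
    suffices h : ∃ β : List Fml, IsProof Γ ((α.imp ψ :: β) ++ π') ∧
        (strs (α.imp ψ :: β)).length ≤ 100 * (B + sz α + 1) by
      obtain ⟨β, hβ1, hβ2⟩ := h
      refine ⟨_, hβ1, ?_, ?_, ?_⟩
      · intro χ hχ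
        rcases List.mem_cons.1 hχ with rfl | hχ
        · simp
        · exact List.mem_append_right _ (h2 χ hχ)
      · rw [strs_append, List.length_cons, Nat.succ_mul]
        omega
      · intro χ π₀ e
        obtain ⟨rfl, rfl⟩ := List.cons.inj e
        exact ⟨β ++ π', rfl⟩
    have weak : (ψ ∈ Γ ∨ LogK ψ) → ∃ β : List Fml, IsProof Γ ((α.imp ψ :: β) ++ π') ∧
        (strs (α.imp ψ :: β)).length ≤ 100 * (B + sz α + 1) := by
      intro h
      refine ⟨[ψ.imp (α.imp ψ), ψ], ⟨⟨⟨h1, ?_⟩, ?_⟩, ?_⟩, ?_⟩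
      · rcases h with h | h
        · exact .inl h
        · exact .inr (.inl h)
      · exact .inr (.inl (.k _ _))
      · exact .inr (.inr (.inl ⟨ψ, by simp, by simp⟩))
      · simp only [strs_cons, sz_imp]
        simp only [strs, List.flatMap_nil, List.length_nil]
        omega
    rcases hπ.2 with h | h | ⟨χ, hχ1, hχ2⟩ | ⟨χ, hχ, x, rfl⟩
    · rcases List.mem_cons.1 h with rfl | h
      · -- `α → α`
        refine ⟨[(ψ.imp (ψ.imp ψ)).imp (ψ.imp ψ), ψ.imp (ψ.imp ψ),
          (ψ.imp ((ψ.imp ψ).imp ψ)).imp ((ψ.imp (ψ.imp ψ)).imp (ψ.imp ψ)),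
          ψ.imp ((ψ.imp ψ).imp ψ)], ⟨⟨⟨⟨⟨h1, ?_⟩, ?_⟩, ?_⟩, ?_⟩, ?_⟩, ?_⟩
        · exact .inr (.inl (.k _ _))
        · exact .inr (.inl (.s _ _ _))
        · exact .inr (.inl (.k _ _))
        · exact .inr (.inr (.inl ⟨ψ.imp ((ψ.imp ψ).imp ψ), by simp, by simp⟩))
        · exact .inr (.inr (.inl ⟨ψ.imp (ψ.imp ψ), by simp, by simp⟩))
        · simp only [strs_cons, sz_imp]
          simp only [strs, List.flatMap_nil, List.length_nil]
          omega
      · exact weak (.inl h)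
    · exact weak (.inr h)
    · -- modus ponens
      have e1 := hB χ (List.mem_cons_of_mem _ hχ1)
      have e2 := hB _ (List.mem_cons_of_mem _ hχ2)
      simp only [sz_imp] at e2
      refine ⟨[(α.imp χ).imp (α.imp ψ), (α.imp (χ.imp ψ)).imp ((α.imp χ).imp (α.imp ψ))],
        ⟨⟨⟨h1, ?_⟩, ?_⟩, ?_⟩, ?_⟩
      · exact .inr (.inl (.s _ _ _))
      · refine .inr (.inr (.inl ⟨α.imp (χ.imp ψ), ?_, by simp⟩))
        exact List.mem_cons_of_mem _ (h2 _ hχ2)
      · refine .inr (.inr (.inl ⟨α.imp χ, ?_, by simp⟩))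
        exact List.mem_cons_of_mem _ (List.mem_cons_of_mem _ (h2 _ hχ1))
      · simp only [strs_cons, sz_imp]
        simp only [strs, List.flatMap_nil, List.length_nil]
        omega
    · -- generalization
      simp only [sz_all] at hψ
      refine ⟨[(Fm.all x (α.imp χ)).imp (α.imp (Fm.all x χ)), Fm.all x (α.imp χ)],
        ⟨⟨⟨h1, ?_⟩, ?_⟩, ?_⟩, ?_⟩
      · exact .inr (.inr (.inr ⟨α.imp χ, h2 _ hχ, x, rfl⟩))
      · exact .inr (.inl (.dist _ _ _ (hα x)))
      · exact .inr (.inr (.inl ⟨Fm.all x (α.imp χ), by simp, by simp⟩))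
      · simp only [strs_cons, sz_imp, sz_all]
        simp only [strs, List.flatMap_nil, List.length_nil]
        omega

/-- (S1) the deduction theorem -/
theorem sDed : SDed := by
  refine ⟨9, fun Γ α φ m hα => ?_⟩
  rintro ⟨π, hπ, hm⟩
  obtain ⟨π', h1, -, h3, h4⟩ := ded_aux Γ α hα m (φ :: π) hπ fun ψ hψ =>
    (sz_le_of_mem hψ).trans hm
  obtain ⟨π₁, rfl⟩ := h4 φ π rfl
  refine ⟨π₁, h1, h3.trans ?_⟩
  have h5 : (φ :: π).length ≤ m := (length_le_strs _).trans hm
  refine (Nat.mul_le_mul_right _ h5).trans ?_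
  unfold pb
  have e : m ≤ m + sz α + 2 := by omega
  have e' : m + sz α + 1 ≤ m + sz α + 2 := by omega
  have e2 : 100 ≤ (m + sz α + 2) ^ 7 := by
    calc 100 ≤ 2 ^ 7 := by norm_num
      _ ≤ (m + sz α + 2) ^ 7 := Nat.pow_le_pow_left (by omega) 7
  calc m * (100 * (m + sz α + 1)) ≤ (m + sz α + 2) * ((m + sz α + 2) ^ 7 * (m + sz α + 2)) :=
        Nat.mul_le_mul e (Nat.mul_le_mul e2 e')
    _ = (m + sz α + 2) ^ 9 := by ring

end Pool.Agent.T9h73.IO
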