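import Pool.Agent.T9h88.IO.Spec

/-!
# Size bounds for the trees of the checker
-/

set_option autoImplicit false

namespace Pool.Agent.T9h73.IO

open Pool.Agent.T9h88.IO
open Pool.Agent.T9h88.IO.Tree (nil node)

@[simp] theorem size_nil : (nil : Tree).size = 0 := rfl
@[simp] theorem size_node (a b : Tree) : (node a b).size = a.size + b.size + 1 := rfl
theorem size_impT (a b : Tree) : (impT a b).size = a.size + b.size + 3 := by
  simp only [impT, tt, size_node, size_nil]; omega
theorem size_allT (u a : Tree) : (allT u a).size = u.size + a.size + 4 := by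
  simp only [allT, tt, size_node, size_nil]; omega
theorem size_eqA (x y : Tree) : (eqA x y).size = x.size + y.size + 4 := by
  simp only [eqA, size_node, size_nil]; omega
theorem size_dflt : dflt.size = 4 := rfl
theorem size_ff : ff.size = 0 := rfl
theorem size_tt : tt.size = 1 := rfl

/-- the maximal size of a member of the list -/
def mx : Tree → ℕ
  | nil => 0
  | node v r => max v.size (mx r)

theorem mx_le : ∀ g : Tree, mx g ≤ g.size
  | nil => le_rfl
  | node v r => by
    have := mx_le r
    simp only [mx, size_node]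
    omega

theorem nthT_le : ∀ g i : Tree, (nthT g i).size ≤ mx g
  | nil, _ => by simp [nthT, mx]
  | node a nil, nil => by simp [nthT, mx]
  | node a (node p q), nil => by simp [nthT, mx]
  | node a nil, node _ _ => by simp [nthT, mx]
  | node _ (node p q), node _ i => by
    rw [nthT]
    exact (nthT_le (node p q) i).trans (le_max_right _ _)

theorem subV_le (x y : Tree) : ∀ l : Tree, (subV x y l).size ≤ l.size * (y.size + 1)
  | nil => by simp [subV]
  | node v r => by
    have ih := subV_le x y r
    rw [subV]
    split_ifs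
    · simp only [size_node]
      nlinarith [Nat.zero_le (v.size * y.size)]
    · simp only [size_node]
      nlinarith [Nat.zero_le (v.size * y.size)]

theorem subT_le (x y : Tree) (l : Tree) : (subT x y l).size ≤ l.size * (y.size + 1) := by
  fun_induction subT x y l with
  | case1 => simp
  | case2 t => simp only [size_node, size_nil]; nlinarith
  | case3 k vs =>
    have := subV_le x y vs
    simp only [size_node, size_nil]; nlinarith [Nat.zero_le (k.size * y.size)]
  | case4 c a b ih1 ih2 =>
    simp only [size_node, size_nil]; nlinarith [Nat.zero_le (c.size * y.size)]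
  | case5 p q c u a h ih =>
    simp only [size_node]
    nlinarith [Nat.zero_le (c.size * y.size), Nat.zero_le (p.size * y.size),
      Nat.zero_le (q.size * y.size), Nat.zero_le (u.size * y.size)]
  | case6 p q c u a h =>
    simp only [size_node]
    nlinarith [Nat.zero_le (c.size * y.size), Nat.zero_le (p.size * y.size),
      Nat.zero_le (q.size * y.size), Nat.zero_le (u.size * y.size),
      Nat.zero_le (a.size * y.size)]

/-- the size of a line in terms of the sizes of the arguments -/
theorem lineO_le (g π : Tree) (k : ℕ) (a b c d : Tree) : (lineO g π k a b c d).size ≤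
    max g.size (mx π + 40 * (a.size + b.size + c.size + d.size + 1) ^ 2) := by
  obtain ⟨s, hs⟩ : ∃ s, s = a.size + b.size + c.size + d.size + 1 := ⟨_, rfl⟩
  rw [← hs]
  have h1 : s ≤ s ^ 2 := by nlinarith [Nat.zero_le s, show 1 ≤ s by omega]
  have h2 : 1 ≤ s ^ 2 := Nat.one_le_pow _ _ (by omega)
  have key : ∀ t : ℕ, t ≤ mx π + 40 * s ^ 2 → t ≤ max g.size (mx π + 40 * s ^ 2) :=
    fun t h => h.trans (le_max_right _ _)
  have hd : dflt.size ≤ max g.size (mx π + 40 * s ^ 2) := by
    refine key _ ?_
    rw [size_dflt]; omega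
  unfold lineO
  split
  · split_ifs
    · exact hd
    · exact ((nthT_le g a).trans (mx_le g)).trans (le_max_left _ _)
  · refine key _ ?_
    simp only [size_impT]; omega
  · refine key _ ?_
    simp only [size_impT]; omega
  · refine key _ ?_
    simp only [size_impT, negT, size_nil]; omega
  · split_ifs
    · exact hd
    · refine key _ ?_
      have := subT_le a b c
      have h3 : c.size * (b.size + 1) ≤ s ^ 2 := by
        rw [pow_two]; exact Nat.mul_le_mul (by omega) (by omega)
      simp only [size_impT, size_allT]; omega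
  · split_ifs
    · refine key _ ?_
      simp only [size_impT, size_allT]; omega
    · exact hd
  · refine key _ ?_
    simp only [size_eqA]; omega
  · split
    · split_ifs
      · exact hd
      · refine key _ ?_
        simp only [size_node, size_nil] at hs ⊢; omega
    · exact hd
  · split_ifs
    · exact hd
    · refine key _ ?_; omega
  · refine key _ ?_
    have := nthT_le π b
    simp only [size_allT]; omega

theorem lineT_le (g π j : Tree) : (lineT g π j).size ≤
    max g.size (mx π + 40 * (j.size + 1) ^ 2) := by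
  have key : ∀ s : ℕ, dflt.size ≤ max g.size (mx π + 40 * (s + 1) ^ 2) := by
    intro s
    have : 1 ≤ (s + 1) ^ 2 := Nat.one_le_pow _ _ (by omega)
    rw [size_dflt]; exact le_max_of_le_right (by omega)
  unfold lineT
  split
  · rename_i o a b c d
    refine (lineO_le g π (opc o) a b c d).trans (max_le_max le_rfl ?_)
    refine Nat.add_le_add_left (Nat.mul_le_mul_left _ (Nat.pow_le_pow_left ?_ 2)) _
    simp only [size_node]; omega
  · exact key _

theorem mx_runT (g : Tree) : ∀ l : Tree, mx (runT g l) ≤ g.size + 40 * (l.size + 1) ^ 2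
  | nil => by simp [runT, mx]
  | node j r => by
    have ih := mx_runT g r
    rw [runT, mx]
    have h := lineT_le g (runT g r) j
    have h3 : (r.size + 1) ^ 2 + (j.size + 1) ^ 2 ≤ ((node j r).size + 1) ^ 2 := by
      rw [size_node]; nlinarith [Nat.zero_le (r.size * j.size)]
    refine max_le (h.trans (max_le ?_ ?_)) ?_
    · omega
    · omega
    · have : (r.size + 1) ^ 2 ≤ ((node j r).size + 1) ^ 2 :=
        Nat.pow_le_pow_left (by rw [size_node]; omega) 2
      omega

theorem runT_le (g : Tree) : ∀ l : Tree,
    (runT g l).size ≤ (l.size + 1) * (g.size + 40 * (l.size + 1) ^ 2 + 1) + 1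
  | nil => by simp [runT]
  | node j r => by
    have ih := runT_le g r
    have h := mx_runT g (node j r)
    have h1 : (lineT g (runT g r) j).size ≤ mx (runT g (node j r)) := by
      rw [runT, mx]; exact le_max_left _ _
    have h2 : 40 * (r.size + 1) ^ 2 ≤ 40 * ((node j r).size + 1) ^ 2 :=
      Nat.mul_le_mul_left _ (Nat.pow_le_pow_left (by rw [size_node]; omega) 2)
    have e : (runT g (node j r)).size = (lineT g (runT g r) j).size + (runT g r).size + 1 := by
      rw [runT, size_node]
    rw [e]
    obtain ⟨T, hT⟩ : ∃ T, T = g.size + 40 * ((node j r).size + 1) ^ 2 := ⟨_, rfl⟩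
    rw [← hT] at h ⊢
    have h4 : (r.size + 1) * (g.size + 40 * (r.size + 1) ^ 2 + 1) ≤ (r.size + 1) * (T + 1) :=
      Nat.mul_le_mul_left _ (by omega)
    have h5 : (r.size + 2) * (T + 1) ≤ ((node j r).size + 1) * (T + 1) :=
      Nat.mul_le_mul_right _ (by rw [size_node]; omega)
    have h6 : (r.size + 2) * (T + 1) = (r.size + 1) * (T + 1) + (T + 1) := by ring
    omega

/-- the size of the run is polynomially bounded -/
theorem runT_size : ∃ C, ∀ g l : Tree, (runT g l).size ≤ pb C (g.size + l.size) := by
  refine ⟨10, fun g l => (runT_le g l).trans ?_⟩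
  obtain ⟨y, hy⟩ : ∃ y, y = g.size + l.size + 2 := ⟨_, rfl⟩
  unfold pb
  rw [← hy]
  have h1 : l.size + 1 ≤ y := by omega
  have h2 : g.size + 40 * (l.size + 1) ^ 2 + 1 ≤ y ^ 8 := by
    have : (l.size + 1) ^ 2 ≤ y ^ 2 := Nat.pow_le_pow_left h1 2
    have hy2 : 2 ≤ y := by omega
    have : y ≤ y ^ 2 := by nlinarith
    have : 64 ≤ y ^ 6 := by
      calc 64 = 2 ^ 6 := by norm_num
        _ ≤ y ^ 6 := Nat.pow_le_pow_left hy2 6
    calc g.size + 40 * (l.size + 1) ^ 2 + 1 ≤ 64 * y ^ 2 := by omega
      _ ≤ y ^ 6 * y ^ 2 := Nat.mul_le_mul_right _ this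
      _ = y ^ 8 := by ring
  have h3 : (l.size + 1) * (g.size + 40 * (l.size + 1) ^ 2 + 1) ≤ y * y ^ 8 :=
    Nat.mul_le_mul h1 h2
  have h4 : 1 ≤ y ^ 9 := Nat.one_le_pow _ _ (by omega)
  calc (l.size + 1) * (g.size + 40 * (l.size + 1) ^ 2 + 1) + 1 ≤ y ^ 9 + y ^ 9 := by
        rw [show y ^ 9 = y * y ^ 8 by ring] at h4 ⊢; omega
    _ = 2 * y ^ 9 := by ring
    _ ≤ y * y ^ 9 := Nat.mul_le_mul_right _ (by omega)
    _ = y ^ 10 := by ring

end Pool.Agent.T9h73.IO
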