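import Pool.Agent.T9h88.IO.Spec

/-!
# The clauses for the checker are true
-/

set_option autoImplicit false
set_option linter.unusedSimpArgs false
namespace Pool.Agent.T9h73.IO
open Pool.Agent.T9h88.IO
open Pool.Agent.T9h88.IO.Tree (nil node)

section
variable (P : Pool.Agent.TH636.BC.Fml) (σ : List Bool) (κ : ℕ) (v : ℕ → ℕ)

theorem tr_nl (a : ℕ) : (nl a).Tr P σ κ v ↔ dec (v a) = nil := Iff.rfl
theorem tr_nd (a b c : ℕ) : (nd a b c).Tr P σ κ v ↔ dec (v c) = node (dec (v a)) (dec (v b)) := Iff.rfl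
theorem tr_eq (a b c d : ℕ) : (At.op iEq a b c d).Tr P σ κ v ↔ eqT (dec (v a)) (dec (v b)) = dec (v c) := Iff.rfl
theorem tr_mem (a b c d : ℕ) : (At.op iMem a b c d).Tr P σ κ v ↔ memT (dec (v a)) (dec (v b)) = dec (v c) := Iff.rfl
theorem tr_free (a b c d : ℕ) : (At.op iFree a b c d).Tr P σ κ v ↔ freeT (dec (v a)) (dec (v b)) = dec (v c) := Iff.rfl
theorem tr_ffor (a b c d : ℕ) : (At.op iFfor a b c d).Tr P σ κ v ↔ fforT (dec (v a)) (dec (v b)) (dec (v c)) = dec (v d) := Iff.rfl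
theorem tr_subV (a b c d : ℕ) : (At.op iSubV a b c d).Tr P σ κ v ↔ subV (dec (v a)) (dec (v b)) (dec (v c)) = dec (v d) := Iff.rfl
theorem tr_sub (a b c d : ℕ) : (At.op iSub a b c d).Tr P σ κ v ↔ subT (dec (v a)) (dec (v b)) (dec (v c)) = dec (v d) := Iff.rfl
theorem tr_sw1 (a b c d : ℕ) : (At.op iSw1 a b c d).Tr P σ κ v ↔ sw1 (dec (v a)) (dec (v b)) (dec (v c)) = dec (v d) := Iff.rfl
theorem tr_sw (a b c d : ℕ) : (At.op iSw a b c d).Tr P σ κ v ↔ swT (dec (v a)) (dec (v b)) (dec (v c)) = dec (v d) := Iff.rfl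
theorem tr_nth (a b c d : ℕ) : (At.op iNth a b c d).Tr P σ κ v ↔ nthT (dec (v a)) (dec (v b)) = dec (v c) := Iff.rfl
theorem tr_line (a b c d : ℕ) : (At.op iLine a b c d).Tr P σ κ v ↔ lineT (dec (v a)) (dec (v b)) (dec (v c)) = dec (v d) := Iff.rfl
theorem tr_run (a b c d : ℕ) : (At.op iRun a b c d).Tr P σ κ v ↔ runT (dec (v a)) (dec (v b)) = dec (v c) := Iff.rfl

end

theorem vEq (P : Pool.Agent.TH636.BC.Fml) (σ : List Bool) (κ : ℕ) : ∀ c ∈ clEq, c.Tr P σ κ := by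
  simp only [clEq, List.forall_mem_cons, List.not_mem_nil, false_implies, implies_true, and_true,
    Cl.Tr, tr_nl, tr_nd, tr_eq, tr_mem]
  refine ⟨?_, ?_, ?_, ?_, ?_, ?_, ?_, ?_⟩ <;> intro v h <;> simp_all [eqT, memT]


theorem vFree (P : Pool.Agent.TH636.BC.Fml) (σ : List Bool) (κ : ℕ) : ∀ c ∈ clFree, c.Tr P σ κ := by
  simp only [clFree, List.forall_mem_cons, List.not_mem_nil, false_implies, implies_true, and_true,
    Cl.Tr, tr_nl, tr_nd, tr_eq, tr_mem, tr_free]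
  refine ⟨?_, ?_, ?_, ?_, ?_, ?_, ?_⟩ <;> intro v h <;> simp_all [freeT]

theorem vFfor (P : Pool.Agent.TH636.BC.Fml) (σ : List Bool) (κ : ℕ) : ∀ c ∈ clFfor, c.Tr P σ κ := by
  simp only [clFfor, List.forall_mem_cons, List.not_mem_nil, false_implies, implies_true, and_true,
    Cl.Tr, tr_nl, tr_nd, tr_eq, tr_free, tr_ffor]
  refine ⟨?_, ?_, ?_, ?_, ?_, ?_, ?_, ?_, ?_⟩ <;> intro v h <;> simp_all [fforT]

theorem vSub (P : Pool.Agent.TH636.BC.Fml) (σ : List Bool) (κ : ℕ) : ∀ c ∈ clSub, c.Tr P σ κ := by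
  simp only [clSub, List.forall_mem_cons, List.not_mem_nil, false_implies, implies_true, and_true,
    Cl.Tr, tr_nl, tr_nd, tr_eq, tr_subV, tr_sub]
  refine ⟨?_, ?_, ?_, ?_, ?_, ?_, ?_, ?_, ?_⟩ <;> intro v h <;> simp_all [subV, subT]

theorem vSw (P : Pool.Agent.TH636.BC.Fml) (σ : List Bool) (κ : ℕ) : ∀ c ∈ clSw, c.Tr P σ κ := by
  simp only [clSw, List.forall_mem_cons, List.not_mem_nil, false_implies, implies_true, and_true,
    Cl.Tr, tr_nl, tr_nd, tr_eq, tr_sw1, tr_sw, tr_nth]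
  refine ⟨?_, ?_, ?_, ?_, ?_, ?_, ?_, ?_, ?_, ?_, ?_, ?_, ?_⟩ <;> intro v h <;> try simp_all [sw1, swT, nthT]
  · rw [← h.1]; exact h.2.2.2

theorem lineO_9 (g π : Tree) (k : ℕ) (a b c d : Tree) : lineO g π (k + 9) a b c d = allT a (nthT π b) := rfl

theorem vLine (P : Pool.Agent.TH636.BC.Fml) (σ : List Bool) (κ : ℕ) : ∀ c ∈ clLine, c.Tr P σ κ := by
  simp only [clLine, List.forall_mem_cons, List.not_mem_nil, false_implies, implies_true, and_true,
    Cl.Tr, tr_nl, tr_nd, tr_eq, tr_sw1, tr_sw, tr_nth, tr_line, tr_run, arg, opk, opq, dfl,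
    List.cons_append, List.nil_append, List.map_cons, List.map_nil, List.range_succ, List.range_zero, List.map_append,
    List.append_nil, tr_ffor, tr_sub, tr_free]
  refine ⟨?_, ?_, ?_, ?_, ?_, ?_, ?_, ?_, ?_, ?_, ?_, ?_, ?_, ?_, ?_, ?_, ?_, ?_, ?_, ?_, ?_, ?_, ?_⟩ <;> intro v h <;>
    try simp_all [lineT, lineO, opc, runT, lineO_9]
  · obtain ⟨h1, h2, h3, h4, h5, h6, h7⟩ := h
    rw [← h6]; exact h7
  all_goals (revert h; simp only [and_imp]; intros; simp_all [lineT, lineO, opc, runT, lineO_9])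

/-- (V1) -/
theorem vTree : VTree := by
  intro P σ κ c hc
  simp only [clTree, List.mem_append] at hc
  rcases hc with ((((h | h) | h) | h) | h) | h
  · exact vEq P σ κ c h
  · exact vFree P σ κ c h
  · exact vFfor P σ κ c h
  · exact vSub P σ κ c h
  · exact vSw P σ κ c h
  · exact vLine P σ κ c h

end Pool.Agent.T9h73.IO
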